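import Mathlib

set_option autoImplicit false

open Filter Topology
open scoped ENNReal

universe u

namespace Pool.Agent.Results.MP_d99131_an.NoRatioLimit

/-- the upper density `limsup_N #(B ∩ [1, N]) / N` -/
noncomputable def upperDens (B : Set ℕ) : ℝ :=
  limsup (fun N : ℕ => ((B ∩ Set.Icc 1 N).ncard : ℝ) / (N : ℝ)) atTop

/-- property `𝒜` of the sequence of operators `S 1, S 2, …` -/
def PropA {X : Type u} [NormedAddCommGroup X] [NormedSpace ℂ X] (S : ℕ → X →L[ℂ] X) : Prop :=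
  ∀ U : Set X, IsOpen U → U.Nonempty → ∃ x : X, 0 < upperDens {n : ℕ | 1 ≤ n ∧ S n x ∈ U}

/-- topological multiple recurrence -/
def TopMultRec {X : Type u} [NormedAddCommGroup X] [NormedSpace ℂ X] (T : X →L[ℂ] X) : Prop :=
  ∀ U : Set X, IsOpen U → U.Nonempty → ∀ m : ℕ, 1 ≤ m → ∃ k : ℕ, 1 ≤ k ∧ ∃ x ∈ U,
    ∀ i : ℕ, 1 ≤ i → i ≤ m → (T ^ (i * k)) x ∈ U

/-- `l 1, l 2, …` is a good sequence of nonzero complex numbers -/
def Good (l : ℕ → ℂ) : Prop :=
  (∀ n, 1 ≤ n → l n ≠ 0) ∧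
  ∀ (X : Type u) [NormedAddCommGroup X] [NormedSpace ℂ X] [CompleteSpace X]
    [TopologicalSpace.SeparableSpace X], ¬ FiniteDimensional ℂ X →
    ∀ T : X →L[ℂ] X, PropA (fun n => l n • T ^ n) → TopMultRec T

/-- the limit of `|l n| / |l (n + t)|` exists in `[0, ∞]` -/
def RatioLimitExists (l : ℕ → ℂ) (t : ℕ) : Prop :=
  ∃ L : ℝ≥0∞, Tendsto (fun n : ℕ => ENNReal.ofReal (‖l n‖ / ‖l (n + t)‖)) atTop (𝓝 L)

/-! ### densities -/

theorem ncard_le (B : Set ℕ) (N : ℕ) : (B ∩ Set.Icc 1 N).ncard ≤ N := by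
  calc (B ∩ Set.Icc 1 N).ncard ≤ (Set.Icc 1 N).ncard :=
        Set.ncard_le_ncard Set.inter_subset_right (Set.finite_Icc 1 N)
    _ = N := by
        rw [← Finset.coe_Icc, Set.ncard_coe_finset, Nat.card_Icc]; omega

theorem ratio_le_one (B : Set ℕ) (N : ℕ) : ((B ∩ Set.Icc 1 N).ncard : ℝ) / (N : ℝ) ≤ 1 :=
  div_le_one_of_le₀ (by exact_mod_cast ncard_le B N) (by positivity)

theorem ratio_nonneg (B : Set ℕ) (N : ℕ) : 0 ≤ ((B ∩ Set.Icc 1 N).ncard : ℝ) / (N : ℝ) := by
  positivity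

theorem le_upperDens {B : Set ℕ} {c : ℝ}
    (h : ∃ᶠ N in atTop, c ≤ ((B ∩ Set.Icc 1 N).ncard : ℝ) / (N : ℝ)) : c ≤ upperDens B := by
  refine le_limsup_of_frequently_le h ?_
  exact ⟨1, by
    rw [eventually_map]
    exact Eventually.of_forall fun N => ratio_le_one B N⟩

theorem frequently_of_upperDens {B : Set ℕ} {c : ℝ} (h : c < upperDens B) :
    ∃ᶠ N in atTop, c < ((B ∩ Set.Icc 1 N).ncard : ℝ) / (N : ℝ) := by
  refine frequently_lt_of_lt_limsup ?_ h
  exact ⟨0, by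
    intro a ha
    rw [eventually_map] at ha
    obtain ⟨N, hN⟩ := ha.exists
    exact (ratio_nonneg B N).trans hN⟩

theorem squares_small {δ : ℝ} (hδ : 0 < δ) :
    ∀ᶠ N : ℕ in atTop, (({n : ℕ | IsSquare n} ∩ Set.Icc 1 N).ncard : ℝ) / (N : ℝ) ≤ δ := by
  obtain ⟨M, hM⟩ := exists_nat_gt (1 / δ)
  have hM0 : (0 : ℝ) < M := (by positivity : 0 < 1 / δ).trans hM
  rw [eventually_atTop]
  refine ⟨M ^ 2, fun N hN => ?_⟩
  have hMpos : 0 < M := by exact_mod_cast hM0
  have hcard : ({n : ℕ | IsSquare n} ∩ Set.Icc 1 N).ncard ≤ Nat.sqrt N := by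
    have hsub : {n : ℕ | IsSquare n} ∩ Set.Icc 1 N ⊆
        ((Finset.Icc 1 (Nat.sqrt N)).image (fun k => k * k) : Finset ℕ) := by
      rintro n ⟨⟨k, rfl⟩, hk1, hk2⟩
      rw [Finset.coe_image, Set.mem_image]
      refine ⟨k, ?_, rfl⟩
      rw [Finset.coe_Icc, Set.mem_Icc]
      refine ⟨?_, Nat.le_sqrt.2 hk2⟩
      by_contra hcon
      have : k = 0 := by omega
      subst this
      simp at hk1
    calc _ ≤ (((Finset.Icc 1 (Nat.sqrt N)).image (fun k => k * k) : Finset ℕ) : Set ℕ).ncard :=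
          Set.ncard_le_ncard hsub (Finset.finite_toSet _)
      _ = ((Finset.Icc 1 (Nat.sqrt N)).image (fun k => k * k)).card := Set.ncard_coe_finset _
      _ ≤ (Finset.Icc 1 (Nat.sqrt N)).card := Finset.card_image_le
      _ = Nat.sqrt N := by rw [Nat.card_Icc]; omega
  have hs : M ≤ Nat.sqrt N := by
    rw [Nat.le_sqrt]; nlinarith [hN]
  have hNpos : (0 : ℝ) < N := by
    have : 0 < N := lt_of_lt_of_le (by positivity) hN
    exact_mod_cast this
  rw [div_le_iff₀ hNpos]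
  have h1 : (({n : ℕ | IsSquare n} ∩ Set.Icc 1 N).ncard : ℝ) ≤ Nat.sqrt N := by exact_mod_cast hcard
  have h2 : (Nat.sqrt N : ℝ) * M ≤ N := by
    have : Nat.sqrt N * M ≤ N := (Nat.mul_le_mul_left _ hs).trans (Nat.sqrt_le N)
    exact_mod_cast this
  have h3 : 1 ≤ δ * M := by
    have := (div_lt_iff₀ hδ).1 hM
    linarith
  have h4 : (0 : ℝ) ≤ Nat.sqrt N := by positivity
  calc (({n : ℕ | IsSquare n} ∩ Set.Icc 1 N).ncard : ℝ) ≤ Nat.sqrt N := h1
    _ ≤ Nat.sqrt N * (δ * M) := le_mul_of_one_le_right h4 h3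
    _ = δ * (Nat.sqrt N * M) := by ring
    _ ≤ δ * N := by gcongr

theorem upperDens_pos_of_squares {A B : Set ℕ} (hAB : A ⊆ B ∪ {n : ℕ | IsSquare n})
    (hA : 0 < upperDens A) : 0 < upperDens B := by
  have h1 := frequently_of_upperDens (half_lt_self hA)
  have h2 := squares_small (δ := upperDens A / 4) (by linarith)
  have h3 : ∃ᶠ N in atTop, upperDens A / 4 ≤ ((B ∩ Set.Icc 1 N).ncard : ℝ) / (N : ℝ) := by
    refine (h1.and_eventually h2).mono ?_
    rintro N ⟨hN1, hN2⟩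
    have hsub : A ∩ Set.Icc 1 N ⊆ (B ∩ Set.Icc 1 N) ∪ ({n : ℕ | IsSquare n} ∩ Set.Icc 1 N) := by
      rintro n ⟨hn1, hn2⟩
      rcases hAB hn1 with h | h
      · exact Or.inl ⟨h, hn2⟩
      · exact Or.inr ⟨h, hn2⟩
    have hfin : ((B ∩ Set.Icc 1 N) ∪ ({n : ℕ | IsSquare n} ∩ Set.Icc 1 N)).Finite :=
      (Set.finite_Icc 1 N).subset (Set.union_subset Set.inter_subset_right Set.inter_subset_right)
    have hc := (Set.ncard_le_ncard hsub hfin).trans (Set.ncard_union_le _ _)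
    have hc' : ((A ∩ Set.Icc 1 N).ncard : ℝ) ≤ (B ∩ Set.Icc 1 N).ncard +
        ({n : ℕ | IsSquare n} ∩ Set.Icc 1 N).ncard := by exact_mod_cast hc
    have hd : ((A ∩ Set.Icc 1 N).ncard : ℝ) / N ≤ ((B ∩ Set.Icc 1 N).ncard : ℝ) / N +
        (({n : ℕ | IsSquare n} ∩ Set.Icc 1 N).ncard : ℝ) / N := by
      rw [← add_div]; gcongr
    linarith
  have := le_upperDens h3
  linarith

/-- property `𝒜` does not change when the scalars are changed on the squares only -/
theorem propA_of_eq_off_squares {X : Type u} [NormedAddCommGroup X] [NormedSpace ℂ X]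
    {l m : ℕ → ℂ} (hlm : ∀ n, ¬ IsSquare n → m n = l n) {T : X →L[ℂ] X}
    (h : PropA (fun n => m n • T ^ n)) : PropA (fun n => l n • T ^ n) := by
  intro U hU hne
  obtain ⟨x, hx⟩ := h U hU hne
  refine ⟨x, upperDens_pos_of_squares ?_ hx⟩
  rintro n ⟨hn1, hn2⟩
  by_cases hsq : IsSquare n
  · exact Or.inr hsq
  · left
    refine ⟨hn1, ?_⟩
    have : (l n • T ^ n) x = (m n • T ^ n) x := by rw [hlm n hsq]
    simpa only [this] using hn2

/-- the new values at the squares -/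
noncomputable def C (l : ℕ → ℂ) (k : ℕ) : ℝ :=
  (k : ℝ) * (1 + ∑ j ∈ Finset.range ((k + 1) ^ 2), ‖l j‖)

open Classical in
/-- the modified sequence -/
noncomputable def modif (l : ℕ → ℂ) (n : ℕ) : ℂ :=
  if IsSquare n then ((C l (Nat.sqrt n) : ℝ) : ℂ) else l n

theorem C_pos (l : ℕ → ℂ) {k : ℕ} (hk : 1 ≤ k) : 0 < C l k := by
  have h1 : (0 : ℝ) < k := by exact_mod_cast hk
  have h2 : 0 ≤ ∑ j ∈ Finset.range ((k + 1) ^ 2), ‖l j‖ := Finset.sum_nonneg fun _ _ => norm_nonneg _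
  unfold C
  positivity

theorem le_C (l : ℕ → ℂ) {k j : ℕ} (hj : j < (k + 1) ^ 2) : (k : ℝ) * ‖l j‖ ≤ C l k := by
  unfold C
  apply mul_le_mul_of_nonneg_left _ (by positivity)
  have := Finset.single_le_sum (f := fun j => ‖l j‖) (s := Finset.range ((k + 1) ^ 2))
    (fun i _ => norm_nonneg _) (Finset.mem_range.2 hj)
  linarith

theorem modif_sq (l : ℕ → ℂ) (k : ℕ) : modif l (k * k) = ((C l k : ℝ) : ℂ) := by
  unfold modif
  rw [if_pos ⟨k, rfl⟩, Nat.sqrt_eq]

theorem modif_not_sq (l : ℕ → ℂ) {n : ℕ} (hn : ¬ IsSquare n) : modif l n = l n := by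
  unfold modif
  rw [if_neg hn]

theorem norm_modif_sq (l : ℕ → ℂ) {k : ℕ} (hk : 1 ≤ k) : ‖modif l (k * k)‖ = C l k := by
  rw [modif_sq, Complex.norm_real, Real.norm_of_nonneg (C_pos l hk).le]

theorem not_sq_between {k n : ℕ} (h1 : k * k < n) (h2 : n < (k + 1) * (k + 1)) : ¬ IsSquare n := by
  rintro ⟨j, rfl⟩
  have h3 : k < j := by
    by_contra hcon
    push Not at hcon
    exact absurd (Nat.mul_le_mul hcon hcon) (by omega)
  have h4 : j < k + 1 := by
    by_contra hcon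
    push Not at hcon
    exact absurd (Nat.mul_le_mul hcon hcon) (by omega)
  omega

theorem modif_ne_zero {l : ℕ → ℂ} (hl : ∀ n, 1 ≤ n → l n ≠ 0) (n : ℕ) (hn : 1 ≤ n) :
    modif l n ≠ 0 := by
  by_cases h : IsSquare n
  · obtain ⟨k, rfl⟩ := h
    rw [modif_sq]
    have hk : 1 ≤ k := by
      by_contra hcon
      have : k = 0 := by omega
      subst this
      simp at hn
    exact_mod_cast (C_pos l hk).ne'
  · rw [modif_not_sq l h]; exact hl n hn

theorem no_limit {l : ℕ → ℂ} (hl : ∀ n, 1 ≤ n → l n ≠ 0) {t : ℕ} (ht : 1 ≤ t) :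
    ¬ RatioLimitExists (modif l) t := by
  rintro ⟨L, hL⟩
  -- along `n = k²` the ratio tends to infinity
  have hA : Tendsto (fun k : ℕ => k * k) atTop atTop :=
    tendsto_atTop_mono (fun k => Nat.le_mul_self k) tendsto_id
  have hB : Tendsto (fun k : ℕ => k * k - t) atTop atTop :=
    (tendsto_sub_atTop_nat t).comp hA
  have h1 : Tendsto (fun k : ℕ => ENNReal.ofReal (‖modif l (k * k)‖ / ‖modif l (k * k + t)‖)) atTop
      (𝓝 ⊤) := by
    apply ENNReal.tendsto_ofReal_atTop.comp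
    refine tendsto_atTop_mono' atTop ?_ tendsto_natCast_atTop_atTop
    filter_upwards [eventually_ge_atTop (t + 1)] with k hk
    have hk1 : 1 ≤ k := by omega
    have hns : ¬ IsSquare (k * k + t) := not_sq_between (k := k) (by omega) (by nlinarith)
    rw [norm_modif_sq l hk1, modif_not_sq l hns]
    have hpos : 0 < ‖l (k * k + t)‖ := norm_pos_iff.2 (hl _ (by omega))
    rw [le_div_iff₀ hpos]
    exact le_C l (by nlinarith)
  have h2 : Tendsto (fun k : ℕ => ENNReal.ofReal (‖modif l (k * k - t)‖ / ‖modif l (k * k - t + t)‖))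
      atTop (𝓝 0) := by
    have h3 : Tendsto (fun k : ℕ => ‖modif l (k * k - t)‖ / ‖modif l (k * k - t + t)‖) atTop (𝓝 0) := by
      refine squeeze_zero' (Eventually.of_forall fun k => by positivity) ?_
        (tendsto_inv_atTop_zero.comp (tendsto_natCast_atTop_atTop (R := ℝ)))
      filter_upwards [eventually_ge_atTop (t + 1)] with k hk
      have hk1 : 1 ≤ k := by omega
      have htk : t < k * k := by nlinarith
      have hns : ¬ IsSquare (k * k - t) := by
        have : k = (k - 1) + 1 := by omega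
        apply not_sq_between (k := k - 1)
        · have : k * k = (k - 1) * (k - 1) + 2 * (k - 1) + 1 := by
            obtain ⟨j, rfl⟩ : ∃ j, k = j + 1 := ⟨k - 1, by omega⟩
            simp only [Nat.add_sub_cancel]; ring
          omega
        · rw [← this]; omega
      rw [Nat.sub_add_cancel htk.le, norm_modif_sq l hk1, modif_not_sq l hns]
      have hkpos : (0 : ℝ) < k := by exact_mod_cast hk1
      rw [div_le_iff₀ (C_pos l hk1), Function.comp_apply]
      have := le_C l (k := k) (j := k * k - t) (by nlinarith [Nat.sub_le (k * k) t])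
      rw [← div_eq_inv_mul, le_div_iff₀ hkpos]
      linarith
    have := (ENNReal.continuous_ofReal.tendsto 0).comp h3
    rw [ENNReal.ofReal_zero] at this
    exact this
  have e1 := tendsto_nhds_unique (hL.comp hA) h1
  have e2 := tendsto_nhds_unique (hL.comp hB) h2
  rw [e1] at e2
  exact absurd e2 (by simp)

theorem good_modif {l : ℕ → ℂ} (hl : Good.{u} l) : Good.{u} (modif l) := by
  refine ⟨modif_ne_zero hl.1, ?_⟩
  intro X _ _ _ _ hX T hT
  exact hl.2 X hX T (propA_of_eq_off_squares (fun n hn => modif_not_sq l hn) hT)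

/-- `(1 / n!)` is a good sequence, since property `𝒜` always fails -/
theorem good_factorial : Good.{u} (fun n => ((n.factorial : ℂ))⁻¹) := by
  refine ⟨fun n _ => inv_ne_zero (by exact_mod_cast Nat.factorial_ne_zero n), ?_⟩
  intro X _ _ _ _ hX T hT
  exfalso
  have hnt : Nontrivial X := by
    by_contra hcon
    rw [not_nontrivial_iff_subsingleton] at hcon
    exact hX inferInstance
  obtain ⟨v, hv⟩ := exists_ne (0 : X)
  have hvn : 0 < ‖v‖ := norm_pos_iff.2 hv
  obtain ⟨x, hx⟩ := hT {y | 1 < ‖y‖} (isOpen_lt continuous_const continuous_norm)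
    ⟨((2 / ‖v‖ : ℝ) : ℂ) • v, by
      simp only [Set.mem_ofPred_eq, norm_smul, Complex.norm_real, Real.norm_eq_abs, abs_div,
        abs_norm]
      rw [div_mul_cancel₀ _ hvn.ne']; norm_num⟩
  have hlim : Tendsto (fun n : ℕ => ‖T‖ ^ n / (n.factorial : ℝ) * ‖x‖) atTop (𝓝 (0 * ‖x‖)) :=
    (FloorSemiring.tendsto_pow_div_factorial_atTop ‖T‖).mul_const _
  rw [zero_mul] at hlim
  obtain ⟨M, hM⟩ := eventually_atTop.1 (hlim.eventually (gt_mem_nhds (zero_lt_one)))
  have hsub : ∀ n, n ∈ {n : ℕ | 1 ≤ n ∧ ((((n.factorial : ℂ))⁻¹ • T ^ n : X →L[ℂ] X)) x ∈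
      {y : X | 1 < ‖y‖}} → n < M := by
    rintro n ⟨_, hn⟩
    by_contra hcon
    push Not at hcon
    have h1 := hM n hcon
    rw [Set.mem_ofPred_eq, _root_.smul_apply, norm_smul, norm_inv,
      Complex.norm_natCast] at hn
    have h2 : ‖(T ^ n) x‖ ≤ ‖T‖ ^ n * ‖x‖ :=
      ((T ^ n).le_opNorm x).trans (by gcongr; exact norm_pow_le' T (by omega))
    have h3 : ((n.factorial : ℝ))⁻¹ * ‖(T ^ n) x‖ ≤ ‖T‖ ^ n / (n.factorial : ℝ) * ‖x‖ := by
      rw [div_eq_mul_inv]
      calc _ ≤ ((n.factorial : ℝ))⁻¹ * (‖T‖ ^ n * ‖x‖) := by gcongr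
        _ = _ := by ring
    linarith
  have h5 := frequently_of_upperDens (half_lt_self hx)
  set B : Set ℕ := {n : ℕ | 1 ≤ n ∧ ((((n.factorial : ℂ))⁻¹ • T ^ n : X →L[ℂ] X)) x ∈
      {y : X | 1 < ‖y‖}} with hB
  obtain ⟨K, hK⟩ := exists_nat_gt ((M : ℝ) / (upperDens B / 2))
  obtain ⟨N, hN1, hN2⟩ := frequently_atTop.1 h5 (K + 1)
  have hc : (B ∩ Set.Icc 1 N).ncard ≤ M := by
    calc _ ≤ (Set.Iio M).ncard :=
          Set.ncard_le_ncard (fun n hn => hsub n hn.1) (Set.finite_Iio M)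
      _ = M := by rw [← Finset.coe_Iio, Set.ncard_coe_finset, Nat.card_Iio]
  have hNpos : (0 : ℝ) < N := by
    have : 0 < N := by omega
    exact_mod_cast this
  have hc' : ((B ∩ Set.Icc 1 N).ncard : ℝ) ≤ M := by exact_mod_cast hc
  rw [lt_div_iff₀ hNpos] at hN2
  rw [div_lt_iff₀ (by linarith)] at hK
  have hKN : (K : ℝ) ≤ N := by
    have : K ≤ N := by omega
    exact_mod_cast this
  nlinarith

/-- There is a good sequence for which no ratio limit exists; moreover every good sequence can be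
changed on the squares only, keeping it good (and keeping property `𝒜` of `(l n T ^ n)` for every
`T`), so that no ratio limit exists. -/
theorem result :
    (∃ l : ℕ → ℂ, Good.{u} l ∧ ∀ t : ℕ, 1 ≤ t → ¬ RatioLimitExists l t) ∧
    (∀ l : ℕ → ℂ, Good.{u} l → ∃ m : ℕ → ℂ, Good.{u} m ∧ (∀ n, ¬ IsSquare n → m n = l n) ∧
      (∀ (X : Type u) [NormedAddCommGroup X] [NormedSpace ℂ X] (T : X →L[ℂ] X),
        PropA (fun n => m n • T ^ n) ↔ PropA (fun n => l n • T ^ n)) ∧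
      ∀ t : ℕ, 1 ≤ t → ¬ RatioLimitExists m t) := by
  refine ⟨⟨modif _, good_modif good_factorial, fun t ht => no_limit good_factorial.{u}.1 ht⟩, ?_⟩
  intro l hl
  exact ⟨modif l, good_modif hl, fun n hn => modif_not_sq l hn,
    fun X _ _ T => ⟨propA_of_eq_off_squares fun n hn => modif_not_sq l hn,
      propA_of_eq_off_squares fun n hn => (modif_not_sq l hn).symm⟩,
    fun t ht => no_limit hl.1 ht⟩

end Pool.Agent.Results.MP_d99131_an.NoRatioLimit
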